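import Pool.Agent.helper61.Y2.Spec

set_option autoImplicit false

/-!
# Project Y2 (MP_752b23_lc): row L2C (the core of the second localisation)
-/

namespace H61.Y2

open H61.Yorioka Cardinal

open Classical in
/-- functions with values in `Q j` for `j ∈ J`, empty outside `J` -/
noncomputable def L2C_V (J : Finset ℕ) (Q : ℕ → Finset (Finset (List Bool))) :
    Finset (ℕ → Finset (List Bool)) :=
  (J.pi Q).image (fun g j => if h : j ∈ J then g j h else ∅)

lemma L2C_V_card (J : Finset ℕ) (Q : ℕ → Finset (Finset (List Bool))) :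
    (L2C_V J Q).card ≤ ∏ j ∈ J, (Q j).card := by
  classical
  unfold L2C_V
  refine Finset.card_image_le.trans ?_
  rw [Finset.card_pi]

lemma L2C_V_mem (J : Finset ℕ) (Q : ℕ → Finset (Finset (List Bool))) (c : ℕ → Finset (List Bool))
    (h1 : ∀ j ∈ J, c j ∈ Q j) : (fun j => if j ∈ J then c j else ∅) ∈ L2C_V J Q := by
  classical
  unfold L2C_V
  refine Finset.mem_image.2 ⟨fun j _ => c j, Finset.mem_pi.2 fun j hj => h1 j hj, ?_⟩
  funext j
  by_cases h : j ∈ J
  · rw [dif_pos h, if_pos h]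
  · rw [dif_neg h, if_neg h]

open Classical in
/-- the candidates for the `j`-th set -/
noncomputable def L2C_Q (e : ℕ → ℕ) (B : ℕ → Finset (List Bool)) (j : ℕ) :
    Finset (Finset (List Bool)) :=
  (B j).powerset.filter (fun s => s.card ≤ 2 ^ e j)

/-- the objects -/
noncomputable def L2C_VV (e D : ℕ → ℕ) (B : ℕ → Finset (List Bool)) :
    ℕ → Finset (ℕ → Finset (List Bool))
  | 0 => ∅
  | i + 1 => L2C_V (JJ D i) (L2C_Q e B)

/-- the coding -/
def L2C_a (D : ℕ → ℕ) (A : ℕ → Finset (List Bool)) : ℕ → ℕ → Finset (List Bool)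
  | 0 => fun _ => ∅
  | i + 1 => fun j => if j ∈ JJ D i then A j else ∅

lemma L2C_le {D : ℕ → ℕ} {i j : ℕ} (h : j ∈ JJ D i) : i ≤ j := by
  unfold JJ at h
  have := (Finset.mem_filter.1 h).2
  omega

open Classical in
/-- the response -/
noncomputable def L2C_S (e D : ℕ → ℕ) (B : ℕ → Finset (List Bool))
    (C : ℕ → Finset (ℕ → Finset (List Bool))) (j : ℕ) : Finset (List Bool) :=
  ((C (j - D j + 1)).filter (fun c => c j ⊆ B j ∧ (c j).card ≤ 2 ^ e j)).biUnion (fun c => c j)

lemma L2C_S_card (e D : ℕ → ℕ) (B : ℕ → Finset (List Bool))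
    (C : ℕ → Finset (ℕ → Finset (List Bool))) (j : ℕ) :
    (L2C_S e D B C j).card ≤ 2 ^ e j * (C (j - D j + 1)).card := by
  classical
  unfold L2C_S
  refine Finset.card_biUnion_le.trans ?_
  refine (Finset.sum_le_card_nsmul _ _ (2 ^ e j) fun c hc => (Finset.mem_filter.1 hc).2.2).trans ?_
  rw [smul_eq_mul, mul_comm]
  exact Nat.mul_le_mul_left _ (Finset.card_filter_le _ _)

theorem L2C (hO1 : O1_stmt) (hCNT : CNT_stmt) (hD2 : D2_stmt) (hD3 : D3_stmt) (hD4 : D4_stmt)
    (hSQT : SQT_stmt) : L2C_stmt := by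
  classical
  intro f e D B hf he hD hBl hBc
  obtain ⟨hu, mD2, hmD2⟩ := hD2 e D hD
  obtain ⟨mD4, hmD4⟩ := hD4 e D hD
  obtain ⟨mB, hmB⟩ := hBc
  have hV : ∃ m, ∀ i ≥ m, (L2C_VV e D B i).card ≤ 2 ^ f (KK i) := by
    refine ⟨max mD4 mB + 1, fun i hi => ?_⟩
    obtain ⟨i, rfl⟩ : ∃ i', i = i' + 1 := ⟨i - 1, by omega⟩
    have hi1 : mD4 ≤ i := by
      have := le_max_left mD4 mB
      omega
    have hi2 : mB ≤ i := by
      have := le_max_right mD4 mB
      omega
    calc (L2C_VV e D B (i + 1)).card ≤ ∏ j ∈ JJ D i, (L2C_Q e B j).card := L2C_V_card _ _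
      _ ≤ ∏ j ∈ JJ D i, (KK (j + (D j / 2 + 1)) + 1) ^ (2 ^ e j) := by
          refine Finset.prod_le_prod' fun j hj => ?_
          refine le_trans ?_ (Nat.pow_le_pow_left (Nat.succ_le_succ
            (hmB j (le_trans hi2 (L2C_le hj)))) _)
          have h1 := hCNT (List Bool) (B j) (2 ^ e j)
          unfold L2C_Q
          exact h1
      _ ≤ 2 ^ KK (i + 1) := hmD4 i hi1
      _ ≤ 2 ^ f (KK (i + 1)) := Nat.pow_le_pow_right (by norm_num) (hf.le_apply)
  have hO := hO1 f (fun j => D j / 2 + 1) (ℕ → Finset (List Bool)) (L2C_VV e D B) hf hu hV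
  refine hSQT _ _ _ _ (yoriokaIdeal f) (rS f) (r1V fun j => D j / 2 + 1) 1 0 (L2C_a D) _ _ hO ?_ ?_
  · rintro A ⟨-, ⟨m1, hm1⟩, m2, hm2⟩
    refine ⟨max m1 m2 + 1, fun i hi => ?_⟩
    obtain ⟨i, rfl⟩ : ∃ i', i = i' + 1 := ⟨i - 1, by omega⟩
    have hi1 : m1 ≤ i := by
      have := le_max_left m1 m2
      omega
    have hi2 : m2 ≤ i := by
      have := le_max_right m1 m2
      omega
    refine L2C_V_mem (JJ D i) (L2C_Q e B) A fun j hj => ?_
    have hij := L2C_le hj
    exact Finset.mem_filter.2 ⟨Finset.mem_powerset.2 (hm2 j (by omega)), hm1 j (by omega)⟩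
  · intro C
    by_cases hne : ∃ A, (Sl f A ∧ (∃ m, ∀ j ≥ m, (A j).card ≤ 2 ^ e j) ∧ ∃ m, ∀ j ≥ m, A j ⊆ B j) ∧
        r1V (fun j => D j / 2 + 1) (L2C_a D A) C
    · obtain ⟨A0, -, mC, hmC⟩ := hne
      -- `j - D j` tends to infinity
      have hinf : ∀ K, ∃ m, ∀ j ≥ m, K ≤ j - D j := by
        intro K
        refine ⟨max mD2 (2 ^ K), fun j hj => ?_⟩
        by_contra hc
        push Not at hc
        have h1 := (hmD2 j (le_trans (le_max_left _ _) hj)).2
        have h2 : 2 ^ K ≤ j := le_trans (le_max_right _ _) hj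
        have h3 : 2 ^ (j - D j) ≤ 2 ^ K := Nat.pow_le_pow_right (by norm_num) hc.le
        have h4 : 0 < 2 ^ K := by positivity
        omega
      have hSl : Sl f (L2C_S e D B C) := by
        refine ⟨?_, ?_⟩
        · intro j s hs
          unfold L2C_S at hs
          obtain ⟨c, hc, hsc⟩ := Finset.mem_biUnion.1 hs
          exact hBl j s ((Finset.mem_filter.1 hc).2.1 hsc)
        · intro k
          obtain ⟨m3, hm3⟩ := hD3 e D he hD k
          obtain ⟨m4, hm4⟩ := hinf mC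
          refine ⟨max m3 m4, fun j hj => ?_⟩
          have hj3 : m3 ≤ j := le_trans (le_max_left _ _) hj
          have hj4 : m4 ≤ j := le_trans (le_max_right _ _) hj
          have h5 := (hmC (j - D j + 1) (by have := hm4 j hj4; omega)).2
          calc (L2C_S e D B C j).card ^ k ≤ (2 ^ e j * (C (j - D j + 1)).card) ^ k :=
                Nat.pow_le_pow_left (L2C_S_card e D B C j) k
            _ ≤ (2 ^ e j * KK (j - D j + 1 + (D (j - D j + 1) / 2 + 1))) ^ k :=
                Nat.pow_le_pow_left (Nat.mul_le_mul_left _ h5) k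
            _ ≤ KK j := hm3 j hj3
      refine ⟨L2C_S e D B C, ?_⟩
      rintro A ⟨⟨-, ⟨m1, hm1⟩, m2, hm2⟩, m5, hm5⟩
      refine ⟨hSl, ?_⟩
      obtain ⟨m6, hm6⟩ := hinf m5
      refine ⟨max (max m1 m2) (max m6 mD2), fun j hj => ?_⟩
      have g1 : m1 ≤ j := le_trans (le_trans (le_max_left _ _) (le_max_left _ _)) hj
      have g2 : m2 ≤ j := le_trans (le_trans (le_max_right _ _) (le_max_left _ _)) hj
      have g6 : m6 ≤ j := le_trans (le_trans (le_max_left _ _) (le_max_right _ _)) hj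
      have gD : mD2 ≤ j := le_trans (le_trans (le_max_right _ _) (le_max_right _ _)) hj
      have h7 := (hm5 (j - D j + 1) (by have := hm6 j g6; omega)).1
      have h8 : j ∈ JJ D (j - D j) := by
        unfold JJ
        refine Finset.mem_filter.2 ⟨Finset.mem_range.2 ?_, rfl⟩
        have := (hmD2 j gD).2
        omega
      have h9 : L2C_a D A (j - D j + 1) j = A j := by
        show (if j ∈ JJ D (j - D j) then A j else ∅) = A j
        rw [if_pos h8]
      intro s hs
      unfold L2C_S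
      refine Finset.mem_biUnion.2 ⟨L2C_a D A (j - D j + 1), Finset.mem_filter.2 ⟨h7, ?_⟩, ?_⟩
      · rw [h9]
        exact ⟨hm2 j g2, hm1 j g1⟩
      · rw [h9]
        exact hs
    · refine ⟨fun _ => ∅, ?_⟩
      rintro A ⟨hA, hA'⟩
      exact absurd ⟨A, hA, hA'⟩ hne

end H61.Y2
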