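import Pool.Agent.helper61.Y2.Spec

set_option autoImplicit false

/-!
# Project Y2 (MP_752b23_lc): row XP1 (candidates for the sets of a slalom for `2 ^ f`)
-/

namespace H61.Y2

open H61.Yorioka Cardinal

open Classical in
/-- functions with values in `Q j` for `j ∈ J`, empty outside `J` -/
noncomputable def XP1_V (J : Finset ℕ) (Q : ℕ → Finset (Finset (List Bool))) :
    Finset (ℕ → Finset (List Bool)) :=
  (J.pi Q).image (fun g j => if h : j ∈ J then g j h else ∅)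

lemma XP1_V_card (J : Finset ℕ) (Q : ℕ → Finset (Finset (List Bool))) :
    (XP1_V J Q).card ≤ ∏ j ∈ J, (Q j).card := by
  classical
  unfold XP1_V
  refine Finset.card_image_le.trans ?_
  rw [Finset.card_pi]

lemma XP1_V_mem (J : Finset ℕ) (Q : ℕ → Finset (Finset (List Bool))) (c : ℕ → Finset (List Bool))
    (h1 : ∀ j ∈ J, c j ∈ Q j) : (fun j => if j ∈ J then c j else ∅) ∈ XP1_V J Q := by
  classical
  unfold XP1_V
  refine Finset.mem_image.2 ⟨fun j _ => c j, Finset.mem_pi.2 fun j hj => h1 j hj, ?_⟩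
  funext j
  by_cases h : j ∈ J
  · rw [dif_pos h, if_pos h]
  · rw [dif_neg h, if_neg h]

open Classical in
/-- the candidates for the `j`-th set -/
noncomputable def XP1_Q (f : ℕ → ℕ) (j : ℕ) : Finset (Finset (List Bool)) :=
  (level (2 ^ f (KK j))).powerset.filter (fun s => s.card ≤ KK j)

/-- the objects -/
noncomputable def XP1_VV (f : ℕ → ℕ) : ℕ → Finset (ℕ → Finset (List Bool))
  | 0 => ∅
  | i + 1 => XP1_V (JX f i) (XP1_Q f)

/-- the coding -/
def XP1_a (f : ℕ → ℕ) (A : ℕ → Finset (List Bool)) : ℕ → ℕ → Finset (List Bool)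
  | 0 => fun _ => ∅
  | i + 1 => fun j => if j ∈ JX f i then A j else ∅

lemma XP1_large (f : ℕ → ℕ) (m : ℕ) : ∃ M, ∀ i ≥ M, ∀ j ∈ JX f i, m ≤ j := by
  refine ⟨∑ j ∈ Finset.range m, ii f j + 1, fun i hi j hj => ?_⟩
  by_contra hc
  push Not at hc
  have h1 : ii f j = i := by
    unfold JX at hj
    exact (Finset.mem_filter.1 hj).2
  have h2 : ii f j ≤ ∑ j ∈ Finset.range m, ii f j :=
    Finset.single_le_sum (f := fun j => ii f j) (fun _ _ => Nat.zero_le _) (Finset.mem_range.2 hc)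
  omega

theorem XP1 (hOB : OB_stmt) (hCNT : CNT_stmt) (hX1 : X1_stmt) (hX2 : X2_stmt) (hSQT : SQT_stmt) :
    XP1_stmt := by
  classical
  intro f hf
  obtain ⟨mX1, hmX1⟩ := hX1 f hf
  obtain ⟨hlt, hX2'⟩ := hX2 f hf
  have hV : ∃ m, ∀ i ≥ m, (XP1_VV f i).card ≤ 2 ^ f (KK i) := by
    refine ⟨mX1 + 1, fun i hi => ?_⟩
    obtain ⟨i, rfl⟩ : ∃ i', i = i' + 1 := ⟨i - 1, by omega⟩
    calc (XP1_VV f (i + 1)).card ≤ ∏ j ∈ JX f i, (XP1_Q f j).card := XP1_V_card _ _
      _ ≤ ∏ j ∈ JX f i, (2 ^ (2 ^ f (KK j)) + 1) ^ KK j := by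
          refine Finset.prod_le_prod' fun j hj => ?_
          have h1 := hCNT (List Bool) (level (2 ^ f (KK j))) (KK j)
          rw [card_level] at h1
          unfold XP1_Q
          exact h1
      _ ≤ 2 ^ KK (i + 1) := hmX1 i (by omega)
      _ ≤ 2 ^ f (KK (i + 1)) := Nat.pow_le_pow_right (by norm_num) (hf.le_apply)
  have hO := hOB f (ℕ → Finset (List Bool)) (XP1_VV f) hf hV
  refine hSQT _ _ _ _ (yoriokaIdeal f) (rW f) rV 3 0 (XP1_a f) _ _ hO ?_ ?_
  · intro A hA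
    obtain ⟨m1, hm1⟩ := hA.wid 1
    obtain ⟨M, hM⟩ := XP1_large f m1
    refine ⟨M + 1, fun i hi => ?_⟩
    obtain ⟨i, rfl⟩ : ∃ i', i = i' + 1 := ⟨i - 1, by omega⟩
    refine XP1_V_mem (JX f i) (XP1_Q f) A fun j hj => ?_
    have h1 := hm1 j (hM i (by omega) j hj)
    rw [pow_one] at h1
    refine Finset.mem_filter.2 ⟨Finset.mem_powerset.2 fun s hs => ?_, h1⟩
    exact mem_level.2 (hA.len j s hs)
  · intro C
    by_cases hne : ∃ A, Sl (fun n => 2 ^ f n) A ∧ rV (XP1_a f A) C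
    · obtain ⟨A0, -, hC, -⟩ := hne
      obtain ⟨m2, hm2⟩ := hX2' (fun i => (C i).card) (hC 4)
      refine ⟨fun j => (C (ii f j + 1)).image (fun c => c j), ?_⟩
      rintro A ⟨-, -, m3, hm3⟩
      refine ⟨max m2 m3, fun j hj => ⟨?_, ?_⟩⟩
      · have h3 : m3 ≤ j := le_trans (le_max_right _ _) hj
        have h4 := hlt j
        have h5 := hm3 (ii f j + 1) (by omega)
        have h6 : j ∈ JX f (ii f j) := by
          unfold JX
          exact Finset.mem_filter.2 ⟨Finset.mem_range.2 h4, rfl⟩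
        refine Finset.mem_image.2 ⟨_, h5, ?_⟩
        show (if j ∈ JX f (ii f j) then A j else ∅) = A j
        rw [if_pos h6]
      · exact Finset.card_image_le.trans (hm2 j (le_trans (le_max_left _ _) hj))
    · refine ⟨fun _ => ∅, ?_⟩
      rintro A ⟨hA, hA'⟩
      exact absurd ⟨A, hA, hA'⟩ hne

end H61.Y2
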