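import Pool.Agent.helper61.Y2.Spec

set_option autoImplicit false

/-!
# Project Y2 (MP_752b23_lc): row Y0B (the limit set of a thin set is in the Yorioka ideal)
-/

namespace H61.Y2

open H61.Yorioka Cardinal

/-- Number of a node: read a binary expansion with leading one. -/
def Y0B_num : List Bool → ℕ
  | [] => 1
  | b :: t => 2 * Y0B_num t + b.toNat

lemma Y0B_num_bounds : ∀ t : List Bool, 2 ^ t.length ≤ Y0B_num t ∧ Y0B_num t < 2 ^ (t.length + 1)
  | [] => by simp [Y0B_num]
  | b :: t => by
    obtain ⟨h1, h2⟩ := Y0B_num_bounds t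
    have hb : b.toNat ≤ 1 := Bool.toNat_le b
    simp only [Y0B_num, List.length_cons]
    rw [pow_succ] at h2 ⊢
    rw [pow_succ (n := t.length + 1), pow_succ]
    omega

lemma Y0B_num_injective : Function.Injective Y0B_num := by
  intro s
  induction s with
  | nil =>
    intro t h
    cases t with
    | nil => rfl
    | cons b t =>
      exfalso
      have := (Y0B_num_bounds t).1
      have h2 : 0 < 2 ^ t.length := by positivity
      simp only [Y0B_num] at h
      omega
  | cons a s ih =>
    intro t h
    cases t with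
    | nil =>
      exfalso
      have := (Y0B_num_bounds s).1
      have h2 : 0 < 2 ^ s.length := by positivity
      simp only [Y0B_num] at h
      omega
    | cons b t =>
      simp only [Y0B_num] at h
      have ha : a.toNat ≤ 1 := Bool.toNat_le a
      have hb : b.toNat ≤ 1 := Bool.toNat_le b
      have h1 : Y0B_num s = Y0B_num t := by omega
      have h2 : a.toNat = b.toNat := by omega
      rw [ih h1]
      congr 1
      cases a <;> cases b <;> simp_all

lemma Y0B_num_mono {s t : List Bool} (h : Y0B_num s < Y0B_num t) : s.length ≤ t.length := by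
  by_contra hc
  push Not at hc
  have h1 := (Y0B_num_bounds s).1
  have h2 := (Y0B_num_bounds t).2
  have h3 : 2 ^ (t.length + 1) ≤ 2 ^ s.length := Nat.pow_le_pow_right (by norm_num) hc
  omega

lemma Y0B_pow_le {i k : ℕ} (h0 : 1 ≤ i) (hk : k ≤ i) : i ^ k ≤ i ^ i :=
  Nat.pow_le_pow_right h0 hk

lemma Y0B_fin {T : Set (List Bool)} (n : ℕ) : {t | t ∈ T ∧ t.length < n}.Finite := by
  have h1 : {t | t ∈ T ∧ t.length < n} ⊆ ⋃ i ∈ Finset.range n, (level i : Set (List Bool)) := by
    rintro t ⟨-, ht⟩
    rw [Set.mem_iUnion₂]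
    exact ⟨t.length, Finset.mem_range.2 ht, Finset.mem_coe.2 (mem_level.2 rfl)⟩
  refine Set.Finite.subset ?_ h1
  exact Set.Finite.biUnion (Finset.finite_toSet _) fun i _ => (level i).finite_toSet

/-- an enumeration with nondecreasing lengths -/
lemma Y0B_enum (T : Set (List Bool)) (hT : T.Infinite) :
    ∃ σ : ℕ → List Bool, (∀ i, σ i ∈ T) ∧ Function.Injective σ ∧ (∀ t ∈ T, ∃ i, σ i = t) ∧
      ∀ i j, i ≤ j → (σ i).length ≤ (σ j).length := by
  classical
  let P : ℕ → Prop := fun n => ∃ t ∈ T, Y0B_num t = n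
  have hP : (setOf P).Infinite := by
    have h1 : setOf P = Y0B_num '' T := by
      ext n
      rfl
    rw [h1]
    exact hT.image (Y0B_num_injective.injOn)
  have hex : ∀ i, ∃ t ∈ T, Y0B_num t = Nat.nth P i := fun i => Nat.nth_mem_of_infinite hP i
  choose σ hσT hσ using hex
  have hmono := Nat.nth_strictMono hP
  refine ⟨σ, hσT, ?_, ?_, ?_⟩
  · intro i j hij
    have h2 : Nat.nth P i = Nat.nth P j := by rw [← hσ i, ← hσ j, hij]
    exact hmono.injective h2
  · intro t ht
    have h3 : Y0B_num t ∈ Set.range (Nat.nth P) := by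
      rw [Nat.range_nth_of_infinite hP]
      exact ⟨t, ht, rfl⟩
    obtain ⟨i, hi⟩ := h3
    refine ⟨i, Y0B_num_injective ?_⟩
    rw [hσ i, hi]
  · intro i j hij
    rcases hij.lt_or_eq with h | h
    · apply Y0B_num_mono
      rw [hσ i, hσ j]
      exact hmono h
    · rw [h]

theorem Y0B : Y0B_stmt := by
  classical
  intro f hf T hT
  by_cases hfin : T.Finite
  · refine ⟨fun n => List.replicate (f (n ^ n)) false, ?_, ?_⟩
    · intro k
      refine ⟨max k 1, fun i hi => ?_⟩
      show f (i ^ k) ≤ (List.replicate (f (i ^ i)) false).length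
      rw [List.length_replicate]
      exact hf.monotone (Y0B_pow_le (le_trans (le_max_right _ _) hi) (le_trans (le_max_left _ _) hi))
    · intro x hx
      exact absurd (hfin.subset fun t ht => ht.1) hx
  · obtain ⟨σ, hσT, hinj, hsurj, hlen⟩ := Y0B_enum T hfin
    have key : ∀ k, 1 ≤ k → ∃ m, 1 ≤ m ∧ ∀ i ≥ m, f (i ^ k) ≤ (σ i).length := by
      intro k hk
      obtain ⟨m, hm⟩ := hT k
      refine ⟨max m 1, le_max_right _ _, fun i hi => ?_⟩
      by_contra hc
      push Not at hc
      have hi1 : 1 ≤ i := le_trans (le_max_right _ _) hi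
      have hik : i ≤ i ^ k := Nat.le_self_pow (by omega) i
      have h1 := hm (i ^ k) (le_trans (le_trans (le_max_left _ _) hi) hik)
      have h2 : i + 1 ≤ cn T (f (i ^ k)) := by
        unfold cn
        have h3 : ((Finset.range (i + 1)).image σ : Set (List Bool)) ⊆
            {t | t ∈ T ∧ t.length < f (i ^ k)} := by
          intro t ht
          obtain ⟨j, hj, rfl⟩ := Finset.mem_image.1 (Finset.mem_coe.1 ht)
          have hj' := Finset.mem_range.1 hj
          exact ⟨hσT j, lt_of_le_of_lt (hlen j i (by omega)) hc⟩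
        have h4 := Set.ncard_le_ncard h3 (Y0B_fin _)
        rw [Set.ncard_coe_finset, Finset.card_image_of_injective _ hinj, Finset.card_range] at h4
        exact h4
      have h5 : i ^ k < (i + 1) ^ k := Nat.pow_lt_pow_left (by omega) (by omega)
      have h6 : (i + 1) ^ k ≤ cn T (f (i ^ k)) ^ k := Nat.pow_le_pow_left h2 k
      omega
    refine ⟨σ, ?_, ?_⟩
    · intro k
      rcases Nat.eq_zero_or_pos k with rfl | hk
      · obtain ⟨m, hm1, hm⟩ := key 1 le_rfl
        refine ⟨m, fun i hi => ?_⟩
        have h1 := hm i hi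
        rw [pow_one] at h1
        rw [pow_zero]
        exact le_trans (hf.monotone (by omega)) h1
      · obtain ⟨m, -, hm⟩ := key k hk
        exact ⟨m, hm⟩
    · intro x hx
      show {n | IsInit (σ n) x}.Infinite
      intro hfi
      apply hx
      refine (hfi.image σ).subset ?_
      rintro t ⟨ht, htx⟩
      obtain ⟨i, rfl⟩ := hsurj t ht
      exact ⟨i, htx, rfl⟩

end H61.Y2
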